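import Pool.Agent.Helper82.Sing.Small

/-!
# The small simplices theorem for singular chains: main theorem
-/

namespace Pool.Agent.Helper82.Sing

open Finset

variable {X : Type} [TopologicalSpace X]

theorem simpMap_eq_aff {n m : ℕ} (f : Fin (n + 1) → Fin (m + 1)) :
    simpMap f = aff (fun i => vert m (f i)) := by
  ext t : 1
  apply Subtype.ext
  rw [aff_val]
  funext j
  change (FunOnFinite.linearMap ℝ ℝ f t.1) j = _
  rw [FunOnFinite.linearMap_apply_apply]
  simp only [vert_val, Finset.sum_apply, Pi.smul_apply, Pi.single_apply, smul_eq_mul, mul_ite,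
    mul_one, mul_zero]
  rw [Finset.sum_filter]
  refine Finset.sum_congr rfl (fun i _ => ?_)
  simp [eq_comm]

/-- The chain of singular simplices attached to a chain of tuples of points of the standard
simplex and a singular simplex. -/
noncomputable def real {m : ℕ} (σ : Sx X m) (n : ℕ) :
    LA (Simp m) (n + 1) →ₗ[ℚ] (Sx X n →₀ ℚ) :=
  Finsupp.lmapDomain ℚ ℚ (fun v : Fin (n + 1) → Simp m => (σ.comp (aff v) : Sx X n))

theorem real_single {m : ℕ} (σ : Sx X m) (n : ℕ) (v : Fin (n + 1) → Simp m) :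
    real σ n (Finsupp.single v 1) = Finsupp.single (σ.comp (aff v)) 1 := by
  simp [real]

theorem aff_face {n m : ℕ} (v : Fin (n + 2) → Simp m) (i : Fin (n + 2)) :
    (aff v).comp (simpMap i.succAbove) = aff (v ∘ i.succAbove) := by
  rw [simpMap_eq_aff, aff_comp]
  congr 1
  funext j
  rw [aff_apply_vert]
  rfl

theorem real_bdry {m : ℕ} (σ : Sx X m) (n : ℕ) (c : LA (Simp m) (n + 2)) :
    bd X n (real σ (n + 1) c) = real σ n (bdry (Simp m) (n + 1) c) := by
  refine ext_single (f := (bd X n).comp (real σ (n + 1)))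
    (g := (real σ n).comp (bdry (Simp m) (n + 1))) (fun v => ?_) c
  simp only [LinearMap.comp_apply, real_single, bd_single, bdry_single, map_sum, map_smul]
  refine Finset.sum_congr rfl (fun i _ => ?_)
  congr 2
  rw [face, ContinuousMap.comp_assoc, aff_face]

theorem real_comp {m k : ℕ} (σ : Sx X k) (w : Fin (m + 1) → Simp k) (n : ℕ)
    (c : LA (Simp m) (n + 1)) :
    real (σ.comp (aff w) : Sx X m) n c = real σ n (mapLA (fun x => aff w x) (n + 1) c) := by
  refine ext_single (f := real (σ.comp (aff w) : Sx X m) n)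
    (g := (real σ n).comp (mapLA (fun x => aff w x) (n + 1))) (fun v => ?_) c
  rw [LinearMap.comp_apply, mapLA_single, real_single, real_single]
  congr 1
  rw [ContinuousMap.comp_assoc, aff_comp]
  rfl

/-- The tautological chain. -/
noncomputable def taut (m : ℕ) : LA (Simp m) (m + 1) := Finsupp.single (vert m) 1

theorem real_taut {m : ℕ} (σ : Sx X m) : real σ m (taut m) = Finsupp.single σ 1 := by
  rw [taut, real_single, aff_vert, ContinuousMap.comp_id]

/-- Iterated subdivision of singular chains. -/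
noncomputable def SdX (X : Type) [TopologicalSpace X] (k n : ℕ) :
    (Sx X n →₀ ℚ) →ₗ[ℚ] (Sx X n →₀ ℚ) :=
  Finsupp.linearCombination ℚ (fun σ : Sx X n => real σ n (SS (bary n) (n + 1) k (taut n)))

/-- Iterated homotopy for singular chains. -/
noncomputable def TX (X : Type) [TopologicalSpace X] (k n : ℕ) :
    (Sx X n →₀ ℚ) →ₗ[ℚ] (Sx X (n + 1) →₀ ℚ) :=
  Finsupp.linearCombination ℚ
    (fun σ : Sx X n => real σ (n + 1) (TT (bary n) (n + 1) k (taut n)))

theorem SdX_single (k n : ℕ) (σ : Sx X n) : SdX X k n (Finsupp.single σ 1) =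
    real σ n (SS (bary n) (n + 1) k (taut n)) := by simp [SdX]

theorem TX_single (k n : ℕ) (σ : Sx X n) : TX X k n (Finsupp.single σ 1) =
    real σ (n + 1) (TT (bary n) (n + 1) k (taut n)) := by simp [TX]

theorem TX_zero_identity (k : ℕ) (c : Sx X 0 →₀ ℚ) :
    bd X 0 (TX X k 0 c) = c - SdX X k 0 c := by
  refine ext_single (f := (bd X 0).comp (TX X k 0)) (g := LinearMap.id - SdX X k 0)
    (fun σ => ?_) c
  simp only [LinearMap.comp_apply, LinearMap.sub_apply, LinearMap.id_apply]
  rw [TX_single, SdX_single, real_bdry]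
  have h := TT_identity (bary 0) 0 k (taut 0)
  have h0 : ∀ c : LA (Simp 0) 0, TT (bary 0) 0 k c = 0 := by
    intro c
    induction k generalizing c with
    | zero => rfl
    | succ k ih =>
      simp only [TT, LinearMap.add_apply, LinearMap.comp_apply, Sd_zero, T_zero, zero_add]
      refine ih ?_ c
      have := TT_identity (bary 0) 0 k (taut 0)
      exact this
  rw [h0, add_zero] at h
  rw [h, map_sub, real_taut]

theorem TX_identity (k n : ℕ) (c : Sx X (n + 1) →₀ ℚ) :
    bd X (n + 1) (TX X k (n + 1) c) + TX X k n (bd X n c) = c - SdX X k (n + 1) c := by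
  refine ext_single (f := (bd X (n + 1)).comp (TX X k (n + 1)) + (TX X k n).comp (bd X n))
    (g := LinearMap.id - SdX X k (n + 1)) (fun σ => ?_) c
  simp only [LinearMap.comp_apply, LinearMap.sub_apply, LinearMap.id_apply, LinearMap.add_apply]
  rw [TX_single, SdX_single, real_bdry]
  have h := TT_identity (bary (n + 1)) (n + 1) k (taut (n + 1))
  have h2 : TX X k n (bd X n (Finsupp.single σ 1)) =
      real σ (n + 1) (TT (bary (n + 1)) (n + 1) k
        (bdry (Simp (n + 1)) (n + 1) (taut (n + 1)))) := by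
    rw [bd_single, taut, bdry_single]
    simp only [map_sum, map_smul]
    refine Finset.sum_congr rfl (fun i _ => ?_)
    congr 1
    rw [TX_single, face, simpMap_eq_aff, real_comp,
      mapLA_TT (bary n) (bary (n + 1)) _ (fun j v => aff_bary _ j v), taut, mapLA_single]
    congr 3
    funext j
    exact aff_apply_vert _ j
  rw [h2, ← map_add, h, map_sub, real_taut]

/-! ### Smallness -/

theorem range_comp_aff_subset {m n : ℕ} (σ : Sx X m) (v : Fin (n + 1) → Simp m) {U : Set X}
    (h : Set.range σ ⊆ U) : Set.range (σ.comp (aff v)) ⊆ U := by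
  rintro _ ⟨t, rfl⟩
  exact h ⟨aff v t, rfl⟩

theorem real_mem_small {m : ℕ} (U V : Set X) (σ : Sx X m) (hσ : σ ∈ small U V m) (n : ℕ)
    (c : LA (Simp m) (n + 1)) : real σ n c ∈ Finsupp.supported ℚ ℚ (small U V n) := by
  refine mem_supported_of_gens (real σ n) Set.univ _ (fun v _ => ?_) c ?_
  · rw [real_single]
    apply single_mem_supp
    rcases hσ with h | h
    · exact Or.inl (range_comp_aff_subset σ v h)
    · exact Or.inr (range_comp_aff_subset σ v h)
  · rw [Finsupp.supported_univ]
    exact Submodule.mem_top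

theorem TX_small (U V : Set X) (k n : ℕ) (c : Sx X n →₀ ℚ)
    (hc : c ∈ Finsupp.supported ℚ ℚ (small U V n)) :
    TX X k n c ∈ Finsupp.supported ℚ ℚ (small U V (n + 1)) := by
  refine mem_supported_of_gens (TX X k n) (small U V n) _ (fun σ hσ => ?_) c hc
  rw [TX_single]
  exact real_mem_small U V σ hσ _ _

theorem real_small_of_good {m : ℕ} {U V : Set X} (hU : IsOpen U) (hV : IsOpen V)
    (h : U ∪ V = Set.univ) (σ : Sx X m) : ∃ δ > 0, ∀ (n : ℕ) (c : LA (Simp m) (n + 1)),
      c ∈ Finsupp.supported ℚ ℚ (Good Set.univ δ (n + 1)) →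
      real σ n c ∈ Finsupp.supported ℚ ℚ (small U V n) := by
  have h1 : ∀ b : Bool, IsOpen (σ ⁻¹' (if b then U else V)) := by
    intro b
    cases b
    · simpa using hV.preimage σ.continuous
    · simpa using hU.preimage σ.continuous
  have h2 : (Set.univ : Set (Simp m)) ⊆ ⋃ b : Bool, σ ⁻¹' (if b then U else V) := by
    intro x _
    have hx : σ x ∈ U ∪ V := by rw [h]; exact Set.mem_univ _
    rcases hx with hx | hx
    · exact Set.mem_iUnion.2 ⟨true, by simpa using hx⟩
    · exact Set.mem_iUnion.2 ⟨false, by simpa using hx⟩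
  obtain ⟨δ, hδ, hball⟩ := lebesgue_number_lemma_of_metric (isCompact_univ (X := Simp m)) h1 h2
  refine ⟨δ / 2, by positivity, fun n c hc => ?_⟩
  refine mem_supported_of_gens (real σ n) _ _ (fun v hv => ?_) c hc
  rw [real_single]
  apply single_mem_supp
  have hin : ∀ t : Simp n, aff v t ∈ Metric.ball (v 0) δ := by
    intro t
    have h3 : (aff v t).1 ∈ Metric.closedBall (v 0).1 (δ / 2) := by
      rw [aff_val]
      refine (convex_closedBall _ _).sum_mem (fun i _ => t.2.1 i) t.2.2 (fun i _ => ?_)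
      exact hv.2 i 0
    rw [Metric.mem_closedBall] at h3
    rw [Metric.mem_ball, Subtype.dist_eq]
    linarith
  obtain ⟨b, hb⟩ := hball (v 0) (Set.mem_univ _)
  cases b
  · right
    rintro _ ⟨t, rfl⟩
    simpa using hb (hin t)
  · left
    rintro _ ⟨t, rfl⟩
    simpa using hb (hin t)

theorem exists_SdX_small_single {U V : Set X} (hU : IsOpen U) (hV : IsOpen V)
    (h : U ∪ V = Set.univ) (n : ℕ) (σ : Sx X n) : ∃ K : ℕ, ∀ k ≥ K,
      SdX X k n (Finsupp.single σ 1) ∈ Finsupp.supported ℚ ℚ (small U V n) := by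
  obtain ⟨δ, hδ, hsmall⟩ := real_small_of_good hU hV h σ
  have hlim : Filter.Tendsto (fun k : ℕ => ((n : ℝ) / (n + 1)) ^ k * 1) Filter.atTop (nhds 0) := by
    have := tendsto_pow_atTop_nhds_zero_of_lt_one (r := (n : ℝ) / (n + 1)) (by positivity)
      (by rw [div_lt_one (by positivity)]; linarith)
    simpa using this
  have hev := hlim.eventually (gt_mem_nhds hδ)
  obtain ⟨K, hK⟩ := Filter.eventually_atTop.1 hev
  refine ⟨K, fun k hk => ?_⟩
  rw [SdX_single]
  apply hsmall
  have hgood : taut n ∈ Finsupp.supported ℚ ℚ (Good (m := n) Set.univ 1 (n + 1)) := by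
    apply single_mem_supp
    refine ⟨fun i => Set.mem_univ _, fun i j => ?_⟩
    have hb := diam_stdSimplex_le (ι := Fin (n + 1))
    have := Metric.dist_le_diam_of_mem (bounded_stdSimplex (Fin (n + 1))) (vert n i).2 (vert n j).2
    exact this.trans hb
  have h1 := mesh_iter n k (δ := 1) zero_le_one (n + 1) le_rfl Set.univ convex_univ (taut n) hgood
  refine Finsupp.supported_mono ?_ h1
  intro v hv
  exact ⟨hv.1, fun i j => (hv.2 i j).trans (hK k hk).le⟩

theorem exists_SdX_small {U V : Set X} (hU : IsOpen U) (hV : IsOpen V)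
    (h : U ∪ V = Set.univ) (n : ℕ) (c : Sx X n →₀ ℚ) : ∃ k : ℕ,
      SdX X k n c ∈ Finsupp.supported ℚ ℚ (small U V n) := by
  choose K hK using exists_SdX_small_single hU hV h n
  refine ⟨c.support.sup K, ?_⟩
  have : SdX X (c.support.sup K) n c =
      c.sum (fun σ a => a • SdX X (c.support.sup K) n (Finsupp.single σ 1)) := by
    simp only [SdX_single]
    exact Finsupp.linearCombination_apply ℚ c
  rw [this, Finsupp.sum]
  refine Submodule.sum_mem _ (fun σ hσ => ?_)
  exact Submodule.smul_mem _ _ (hK σ _ (Finset.le_sup (f := K) hσ))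

/-- Small simplices theorem in degree zero. -/
theorem small_simplices_zero {U V : Set X} (hU : IsOpen U) (hV : IsOpen V)
    (h : U ∪ V = Set.univ) (c : Sx X 0 →₀ ℚ) : ∃ e : Sx X 1 →₀ ℚ,
      c - bd X 0 e ∈ Finsupp.supported ℚ ℚ (small U V 0) := by
  obtain ⟨k, hk⟩ := exists_SdX_small hU hV h 0 c
  refine ⟨TX X k 0 c, ?_⟩
  rw [TX_zero_identity, sub_sub_cancel]
  exact hk

/-- Small simplices theorem. -/
theorem small_simplices {U V : Set X} (hU : IsOpen U) (hV : IsOpen V)
    (h : U ∪ V = Set.univ) (n : ℕ) (c : Sx X (n + 1) →₀ ℚ)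
    (hc : bd X n c ∈ Finsupp.supported ℚ ℚ (small U V n)) : ∃ e : Sx X (n + 2) →₀ ℚ,
      c - bd X (n + 1) e ∈ Finsupp.supported ℚ ℚ (small U V (n + 1)) := by
  obtain ⟨k, hk⟩ := exists_SdX_small hU hV h (n + 1) c
  refine ⟨TX X k (n + 1) c, ?_⟩
  have h1 := TX_identity k n c
  have h2 : c - bd X (n + 1) (TX X k (n + 1) c) = SdX X k (n + 1) c + TX X k n (bd X n c) := by
    rw [sub_eq_iff_eq_add]
    have : c = (c - SdX X k (n + 1) c) + SdX X k (n + 1) c := by abel
    rw [← h1] at this
    conv_lhs => rw [this]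
    abel
  rw [h2]
  exact Submodule.add_mem _ hk (TX_small U V k n _ hc)

end Pool.Agent.Helper82.Sing
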