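import Mathlib

/-!
# Additivity of the homological Euler characteristic
-/

namespace Pool.Agent.Helper82.Sing

open CategoryTheory

/-- The homology of the complex `K` is finite dimensional in each degree and vanishes in large
degrees. -/
def FinH (K : ChainComplex (ModuleCat.{0} ℚ) ℕ) : Prop :=
  (∀ n : ℕ, Module.Finite ℚ (K.homology n)) ∧
    ∃ N : ℕ, ∀ n : ℕ, N ≤ n → Subsingleton (K.homology n)

theorem euler_eq_sum {K : ChainComplex (ModuleCat.{0} ℚ) ℕ} (N : ℕ)
    (h : ∀ n : ℕ, N ≤ n → Subsingleton (K.homology n)) :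
    K.homologyEulerChar =
      ∑ i ∈ Finset.range N, (-1 : ℤ) ^ i * (Module.finrank ℚ (K.homology i) : ℤ) := by
  rw [HomologicalComplex.homologyEulerChar_eq_sum_finSet_of_finrankSupport_subset K
    (Finset.range N)]
  · refine Finset.sum_congr rfl (fun i _ => ?_)
    congr 1
  · rw [GradedObject.finrankSupport_subset_iff]
    intro i hi
    have : N ≤ i := by simpa using hi
    have := h i this
    exact Module.finrank_zero_of_subsingleton

/-- Rank bookkeeping for `A → B → C` exact at `B`. -/
theorem finrank_mid {A B C : Type} [AddCommGroup A] [AddCommGroup B] [AddCommGroup C]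
    [Module ℚ A] [Module ℚ B] [Module ℚ C] [Module.Finite ℚ B]
    (f : A →ₗ[ℚ] B) (g : B →ₗ[ℚ] C) (h : LinearMap.range f = LinearMap.ker g) :
    Module.finrank ℚ B = Module.finrank ℚ (LinearMap.range f) +
      Module.finrank ℚ (LinearMap.range g) := by
  rw [h, add_comm]
  exact (LinearMap.finrank_range_add_finrank_ker g).symm

theorem finite_mid {A B C : Type} [AddCommGroup A] [AddCommGroup B] [AddCommGroup C]
    [Module ℚ A] [Module ℚ B] [Module ℚ C] [Module.Finite ℚ A] [Module.Finite ℚ C]
    (f : A →ₗ[ℚ] B) (g : B →ₗ[ℚ] C) (h : LinearMap.range f = LinearMap.ker g) :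
    Module.Finite ℚ B := by
  have h1 : Module.Finite ℚ (LinearMap.ker g) := by
    rw [← h]
    infer_instance
  have h2 : Module.Finite ℚ (B ⧸ LinearMap.ker g) :=
    Module.Finite.equiv g.quotKerEquivRange.symm
  exact Module.Finite.of_submodule_quotient (LinearMap.ker g)

variable (S : ShortComplex (ChainComplex (ModuleCat.{0} ℚ) ℕ)) (hS : S.ShortExact)

theorem euler_add (hS : S.ShortExact) (h1 : FinH S.X₁) (h2 : FinH S.X₂) : FinH S.X₃ ∧
    S.X₂.homologyEulerChar = S.X₁.homologyEulerChar + S.X₃.homologyEulerChar := by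
  obtain ⟨h1f, N1, h1N⟩ := h1
  obtain ⟨h2f, N2, h2N⟩ := h2
  have e2 : ∀ n, LinearMap.range (HomologicalComplex.homologyMap S.f n).hom =
      LinearMap.ker (HomologicalComplex.homologyMap S.g n).hom := fun n =>
    (hS.homology_exact₂ n).moduleCat_range_eq_ker
  have hrel : ∀ n, (ComplexShape.down ℕ).Rel (n + 1) n := fun n => rfl
  have e3 : ∀ n, LinearMap.range (HomologicalComplex.homologyMap S.g (n + 1)).hom =
      LinearMap.ker (hS.δ (n + 1) n (hrel n)).hom := fun n =>
    (hS.homology_exact₃ (n + 1) n (hrel n)).moduleCat_range_eq_ker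
  have e1 : ∀ n, LinearMap.range (hS.δ (n + 1) n (hrel n)).hom =
      LinearMap.ker (HomologicalComplex.homologyMap S.f n).hom := fun n =>
    (hS.homology_exact₁ (n + 1) n (hrel n)).moduleCat_range_eq_ker
  have e0 : Function.Surjective (HomologicalComplex.homologyMap S.g 0).hom := by
    have hepi : Epi S.g := hS.epi_g
    have : Epi (HomologicalComplex.homologyMap S.g 0) :=
      HomologicalComplex.epi_homologyMap_of_epi_of_not_rel S.g 0 (by simp)
    exact (ModuleCat.epi_iff_surjective _).1 this
  have h3f : ∀ n, Module.Finite ℚ (S.X₃.homology n) := by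
    intro n
    cases n with
    | zero =>
      have := h2f 0
      exact Module.Finite.of_surjective _ e0
    | succ n =>
      have := h2f (n + 1)
      have := h1f n
      exact finite_mid _ _ (e3 n)
  have h3N : ∀ n, max N1 N2 + 1 ≤ n → Subsingleton (S.X₃.homology n) := by
    intro n hn
    obtain ⟨m, rfl⟩ : ∃ m, n = m + 1 := ⟨n - 1, by omega⟩
    have s1 := h1N m (by omega)
    have s2 := h2N (m + 1) (by omega)
    refine subsingleton_of_forall_eq 0 (fun x => ?_)
    have hx : x ∈ LinearMap.ker (hS.δ (m + 1) m (hrel m)).hom := by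
      rw [LinearMap.mem_ker]
      exact Subsingleton.elim _ _
    rw [← e3 m] at hx
    obtain ⟨y, hy⟩ := hx
    rw [← hy, Subsingleton.elim y 0, map_zero]
  refine ⟨⟨h3f, _, h3N⟩, ?_⟩
  set N := max N1 N2 + 1 with hN
  rw [euler_eq_sum N (fun n hn => h2N n (by omega)), euler_eq_sum N (fun n hn => h1N n (by omega)),
    euler_eq_sum N h3N, ← Finset.sum_add_distrib]
  -- ranks
  let r : ℕ → ℤ := fun n =>
    (Module.finrank ℚ (LinearMap.range (HomologicalComplex.homologyMap S.f n).hom) : ℤ)
  let s : ℕ → ℤ := fun n =>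
    (Module.finrank ℚ (LinearMap.range (HomologicalComplex.homologyMap S.g n).hom) : ℤ)
  let t : ℕ → ℤ := fun n => match n with
    | 0 => 0
    | n + 1 => (Module.finrank ℚ (LinearMap.range (hS.δ (n + 1) n (hrel n)).hom) : ℤ)
  have d2 : ∀ n, (Module.finrank ℚ (S.X₂.homology n) : ℤ) = r n + s n := by
    intro n
    have := h2f n
    have := finrank_mid _ _ (e2 n)
    simp only [r, s]
    exact_mod_cast this
  have d1 : ∀ n, (Module.finrank ℚ (S.X₁.homology n) : ℤ) = t (n + 1) + r n := by
    intro n
    have := h1f n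
    have := finrank_mid _ _ (e1 n)
    simp only [r, t]
    exact_mod_cast this
  have d3 : ∀ n, (Module.finrank ℚ (S.X₃.homology n) : ℤ) = s n + t n := by
    intro n
    cases n with
    | zero =>
      simp only [s, t]
      rw [LinearMap.range_eq_top.2 e0, finrank_top, add_zero]
    | succ n =>
      have := h3f (n + 1)
      have := finrank_mid _ _ (e3 n)
      simp only [s, t]
      exact_mod_cast this
  have htel : ∀ M, ∑ i ∈ Finset.range M, ((-1 : ℤ) ^ i * (t (i + 1) + t i)) =
      - (-1 : ℤ) ^ M * t M := by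
    intro M
    induction M with
    | zero => simp [t]
    | succ M ih =>
      rw [Finset.sum_range_succ, ih, pow_succ]
      ring
  have htN : t N = 0 := by
    have := h3N N le_rfl
    simp only [hN, t]
    have hb : LinearMap.range (hS.δ (max N1 N2 + 1) (max N1 N2)
        (hrel (max N1 N2))).hom = ⊥ := by
      rw [eq_bot_iff]
      rintro x ⟨y, hy⟩
      rw [Subsingleton.elim y 0, map_zero] at hy
      rw [← hy]
      exact Submodule.zero_mem _
    rw [hb, finrank_bot]
    rfl
  have hsum : ∑ i ∈ Finset.range N, ((-1 : ℤ) ^ i * (t (i + 1) + t i)) = 0 := by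
    rw [htel, htN, mul_zero]
  rw [← sub_eq_zero, ← Finset.sum_sub_distrib]
  rw [← neg_eq_zero, ← Finset.sum_neg_distrib, ← hsum]
  refine Finset.sum_congr rfl (fun i _ => ?_)
  rw [d1, d2, d3]
  ring

end Pool.Agent.Helper82.Sing
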