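import Pool.Agent.Helper82.Sing.Euler

/-!
# A criterion for a subcomplex inclusion to be a quasi-isomorphism
-/

namespace Pool.Agent.Helper82.Sing

open CategoryTheory

/-- Isomorphic homology in every degree: same finiteness and the same Euler characteristic. -/
theorem finH_euler_of_iso {K L : ChainComplex (ModuleCat.{0} ℚ) ℕ}
    (e : ∀ n, K.homology n ≅ L.homology n) (hK : FinH K) :
    FinH L ∧ L.homologyEulerChar = K.homologyEulerChar := by
  obtain ⟨hf, N, hN⟩ := hK
  have hN' : ∀ n, N ≤ n → Subsingleton (L.homology n) := by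
    intro n hn
    have := hN n hn
    exact (e n).toLinearEquiv.symm.toEquiv.subsingleton
  refine ⟨⟨fun n => ?_, N, hN'⟩, ?_⟩
  · have := hf n
    exact Module.Finite.equiv (e n).toLinearEquiv
  · rw [euler_eq_sum N hN, euler_eq_sum N hN']
    refine Finset.sum_congr rfl (fun i _ => ?_)
    rw [(e i).toLinearEquiv.finrank_eq]

variable {A K : ChainComplex (ModuleCat.{0} ℚ) ℕ} (f : A ⟶ K)

theorem isIso_homologyMap_of_small (hinj : ∀ n, Function.Injective (f.f n).hom)
    (h0 : ∀ c : K.X 0, ∃ e : K.X 1, c - (K.d 1 0).hom e ∈ LinearMap.range (f.f 0).hom)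
    (h1 : ∀ (n : ℕ) (c : K.X (n + 1)), (K.d (n + 1) n).hom c ∈ LinearMap.range (f.f n).hom →
      ∃ e : K.X (n + 2), c - (K.d (n + 2) (n + 1)).hom e ∈ LinearMap.range (f.f (n + 1)).hom)
    (n : ℕ) : IsIso (HomologicalComplex.homologyMap f n) := by
  have hmf : ∀ n, Mono (f.f n) := fun n => (ModuleCat.mono_iff_injective _).2 (hinj n)
  have hmono : Mono f := HomologicalComplex.mono_of_mono_f f hmf
  let S : ShortComplex (ChainComplex (ModuleCat.{0} ℚ) ℕ) :=
    ShortComplex.mk f (Limits.cokernel.π f) (Limits.cokernel.condition f)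
  have hS : S.ShortExact :=
    { exact := ShortComplex.exact_of_g_is_cokernel S (Limits.cokernelIsCokernel f)
      mono_f := hmono
      epi_g := inferInstanceAs (Epi (Limits.cokernel.π f)) }
  have hdeg : ∀ n, (S.map (HomologicalComplex.eval _ _ n)).ShortExact := fun n =>
    hS.map_of_exact (HomologicalComplex.eval _ _ n)
  have hsurj : ∀ n, Function.Surjective (S.g.f n).hom := fun n =>
    (hdeg n).moduleCat_surjective_g
  have hex : ∀ n (x : K.X n), (S.g.f n).hom x = 0 → x ∈ LinearMap.range (f.f n).hom := by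
    intro n x hx
    have := (hdeg n).exact.moduleCat_range_eq_ker
    change x ∈ LinearMap.range ((S.map (HomologicalComplex.eval _ _ n)).f).hom
    rw [this]
    exact hx
  have hfg : ∀ n (x : A.X n), (S.g.f n).hom ((f.f n).hom x) = 0 := by
    intro n x
    have := HomologicalComplex.congr_hom S.zero n
    exact congrArg (fun φ => φ.hom x) this
  have hcomm : ∀ i j (x : K.X i), (S.X₃.d i j).hom ((S.g.f i).hom x) =
      (S.g.f j).hom ((K.d i j).hom x) := by
    intro i j x
    have := S.g.comm i j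
    exact (congrArg (fun φ => φ.hom x) this)
  have hacyc : ∀ n, S.X₃.ExactAt n := by
    intro n
    cases n with
    | zero =>
      rw [HomologicalComplex.exactAt_iff' _ 1 0 0 (by simp) (by simp)]
      rw [ShortComplex.moduleCat_exact_iff]
      intro x _
      obtain ⟨c, rfl⟩ := hsurj 0 x
      obtain ⟨e, he⟩ := h0 c
      refine ⟨(S.g.f 1).hom e, ?_⟩
      obtain ⟨a, ha⟩ := he
      have h3 := hfg 0 a
      rw [ha, map_sub] at h3
      have h4 := hcomm 1 0 e
      change (S.X₃.d 1 0).hom ((S.g.f 1).hom e) = (S.g.f 0).hom c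
      rw [h4]
      exact (sub_eq_zero.1 h3).symm
    | succ n =>
      rw [HomologicalComplex.exactAt_iff' _ (n + 2) (n + 1) n (by simp) (by simp)]
      rw [ShortComplex.moduleCat_exact_iff]
      intro x hx
      obtain ⟨c, rfl⟩ := hsurj (n + 1) x
      have h5 : (S.X₃.d (n + 1) n).hom ((S.g.f (n + 1)).hom c) = 0 := hx
      rw [hcomm] at h5
      obtain ⟨e, he⟩ := h1 n c (hex n _ h5)
      refine ⟨(S.g.f (n + 2)).hom e, ?_⟩
      obtain ⟨a, ha⟩ := he
      have h3 := hfg (n + 1) a
      rw [ha, map_sub] at h3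
      have h4 := hcomm (n + 2) (n + 1) e
      change (S.X₃.d (n + 2) (n + 1)).hom ((S.g.f (n + 2)).hom e) = (S.g.f (n + 1)).hom c
      rw [h4]
      exact (sub_eq_zero.1 h3).symm
  have hz : ∀ n, Limits.IsZero (S.X₃.homology n) := fun n => (hacyc n).isZero_homology
  have hepi : Epi (HomologicalComplex.homologyMap f n) :=
    (hS.homology_exact₂ n).epi_f ((hz n).eq_of_tgt _ _)
  have hmono' : Mono (HomologicalComplex.homologyMap f n) :=
    (hS.homology_exact₁ (n + 1) n rfl).mono_g ((hz (n + 1)).eq_of_src _ _)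
  exact isIso_of_mono_of_epi _

/-- Under the small-chains criterion the subcomplex computes finiteness and Euler
characteristic. -/
theorem finH_euler_of_small (hinj : ∀ n, Function.Injective (f.f n).hom)
    (h0 : ∀ c : K.X 0, ∃ e : K.X 1, c - (K.d 1 0).hom e ∈ LinearMap.range (f.f 0).hom)
    (h1 : ∀ (n : ℕ) (c : K.X (n + 1)), (K.d (n + 1) n).hom c ∈ LinearMap.range (f.f n).hom →
      ∃ e : K.X (n + 2), c - (K.d (n + 2) (n + 1)).hom e ∈ LinearMap.range (f.f (n + 1)).hom)
    (hA : FinH A) : FinH K ∧ K.homologyEulerChar = A.homologyEulerChar := by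
  refine finH_euler_of_iso (fun n => ?_) hA
  have := isIso_homologyMap_of_small f hinj h0 h1 n
  exact asIso (HomologicalComplex.homologyMap f n)

end Pool.Agent.Helper82.Sing
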