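import Mathlib

/-!
# Ordered chains, cones and subdivision (algebraic part)

`LA P n` is the vector space of rational chains of ordered `n`-tuples of points of `P`
(the augmented ordered chain complex, shifted by one).  Given a choice `b` of a point for every
nonempty tuple, `Sd` is the corresponding subdivision operator, `T` the chain homotopy from the
identity to `Sd`.
-/

namespace Pool.Agent.Helper82.Sing

open Finset

/-- Rational chains of ordered `n`-tuples. -/
abbrev LA (P : Type*) (n : ℕ) := (Fin n → P) →₀ ℚ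

variable {P Q : Type*}

/-- The boundary operator. -/
noncomputable def bdry (P : Type*) (n : ℕ) : LA P (n + 1) →ₗ[ℚ] LA P n :=
  Finsupp.linearCombination ℚ (fun v : Fin (n + 1) → P =>
    ∑ i : Fin (n + 1), (-1 : ℚ) ^ (i : ℕ) • Finsupp.single (v ∘ i.succAbove) (1 : ℚ))

/-- The cone operator. -/
noncomputable def cone (p : P) (n : ℕ) : LA P n →ₗ[ℚ] LA P (n + 1) :=
  Finsupp.lmapDomain ℚ ℚ (fun v : Fin n → P => (Fin.cons p v : Fin (n + 1) → P))

theorem bdry_single (n : ℕ) (v : Fin (n + 1) → P) :
    bdry P n (Finsupp.single v 1) =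
      ∑ i : Fin (n + 1), (-1 : ℚ) ^ (i : ℕ) • Finsupp.single (v ∘ i.succAbove) (1 : ℚ) := by
  simp [bdry]

theorem cone_single (p : P) (n : ℕ) (v : Fin n → P) :
    cone p n (Finsupp.single v 1) = Finsupp.single (Fin.cons p v : Fin (n + 1) → P) 1 := by
  simp [cone]

/-- Two linear maps out of the chains agree if they agree on generators. -/
theorem ext_single {M : Type*} [AddCommMonoid M] [Module ℚ M] {ι : Type*} {f g : (ι →₀ ℚ) →ₗ[ℚ] M}
    (h : ∀ v, f (Finsupp.single v 1) = g (Finsupp.single v 1)) (c : ι →₀ ℚ) : f c = g c := by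
  have : f = g := by
    ext v
    simpa using h v
  rw [this]

theorem bdry_cone_zero (p : P) (c : LA P 0) : bdry P 0 (cone p 0 c) = c := by
  refine ext_single (f := (bdry P 0).comp (cone p 0)) (g := LinearMap.id) (fun v => ?_) c
  simp only [LinearMap.comp_apply, LinearMap.id_apply, cone_single, bdry_single]
  simp only [Fin.sum_univ_succ, Finset.univ_eq_empty, Finset.sum_empty, add_zero]
  simp only [Fin.val_zero, pow_zero, one_smul]
  congr 1

theorem bdry_cone_succ (p : P) (n : ℕ) (c : LA P (n + 1)) :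
    bdry P (n + 1) (cone p (n + 1) c) = c - cone p n (bdry P n c) := by
  refine ext_single (f := (bdry P (n + 1)).comp (cone p (n + 1)))
    (g := LinearMap.id - (cone p n).comp (bdry P n)) (fun v => ?_) c
  simp only [LinearMap.comp_apply, LinearMap.id_apply, LinearMap.sub_apply, cone_single,
    bdry_single]
  rw [Fin.sum_univ_succ]
  have h0 : (Fin.cons p v : Fin (n + 2) → P) ∘ (0 : Fin (n + 2)).succAbove = v := by
    funext j; simp
  have h1 : ∀ i : Fin (n + 1), (Fin.cons p v : Fin (n + 2) → P) ∘ (i.succ).succAbove =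
      Fin.cons p (v ∘ i.succAbove) := by
    intro i
    funext j
    refine Fin.cases ?_ (fun j => ?_) j
    · simp
    · simp
  rw [h0]
  simp only [h1, map_sum, map_smul, cone_single]
  rw [sub_eq_add_neg, ← Finset.sum_neg_distrib]
  simp only [Fin.val_zero, pow_zero, one_smul, Fin.val_succ, pow_succ, mul_neg, mul_one, neg_smul]

theorem bdry_bdry (n : ℕ) (c : LA P (n + 2)) : bdry P n (bdry P (n + 1) c) = 0 := by
  induction n with
  | zero =>
    refine ext_single (f := (bdry P 0).comp (bdry P 1)) (g := 0) (fun v => ?_) c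
    have hv : v = Fin.cons (v 0) (Fin.tail v) := (Fin.cons_self_tail v).symm
    rw [hv, ← cone_single, LinearMap.comp_apply, bdry_cone_succ, map_sub, bdry_cone_zero, sub_self]
    simp
  | succ n ih =>
    refine ext_single (f := (bdry P (n + 1)).comp (bdry P (n + 2))) (g := 0) (fun v => ?_) c
    have hv : v = Fin.cons (v 0) (Fin.tail v) := (Fin.cons_self_tail v).symm
    rw [hv, ← cone_single, LinearMap.comp_apply, bdry_cone_succ, map_sub, bdry_cone_succ, ih]
    simp

variable (b : ∀ n : ℕ, (Fin (n + 1) → P) → P)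

/-- The subdivision operator. -/
noncomputable def Sd : ∀ n : ℕ, LA P n →ₗ[ℚ] LA P n
  | 0 => LinearMap.id
  | n + 1 => Finsupp.linearCombination ℚ (fun v : Fin (n + 1) → P =>
      cone (b n v) n (Sd n (bdry P n (Finsupp.single v 1))))

/-- The homotopy operator. -/
noncomputable def T : ∀ n : ℕ, LA P n →ₗ[ℚ] LA P (n + 1)
  | 0 => 0
  | n + 1 => Finsupp.linearCombination ℚ (fun v : Fin (n + 1) → P =>
      cone (b n v) (n + 1) (Finsupp.single v 1 - T n (bdry P n (Finsupp.single v 1))))

@[simp] theorem Sd_zero (c : LA P 0) : Sd b 0 c = c := rfl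
@[simp] theorem T_zero (c : LA P 0) : T b 0 c = 0 := rfl

theorem Sd_succ_single (n : ℕ) (v : Fin (n + 1) → P) : Sd b (n + 1) (Finsupp.single v 1) =
    cone (b n v) n (Sd b n (bdry P n (Finsupp.single v 1))) := by
  simp [Sd]

theorem T_succ_single (n : ℕ) (v : Fin (n + 1) → P) : T b (n + 1) (Finsupp.single v 1) =
    cone (b n v) (n + 1) (Finsupp.single v 1 - T b n (bdry P n (Finsupp.single v 1))) := by
  simp [T]

theorem bdry_Sd (n : ℕ) (c : LA P (n + 1)) : bdry P n (Sd b (n + 1) c) = Sd b n (bdry P n c) := by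
  induction n with
  | zero =>
    refine ext_single (f := (bdry P 0).comp (Sd b 1)) (g := (Sd b 0).comp (bdry P 0))
      (fun v => ?_) c
    rw [LinearMap.comp_apply, LinearMap.comp_apply, Sd_succ_single, bdry_cone_zero]
  | succ n ih =>
    refine ext_single (f := (bdry P (n + 1)).comp (Sd b (n + 2)))
      (g := (Sd b (n + 1)).comp (bdry P (n + 1))) (fun v => ?_) c
    rw [LinearMap.comp_apply, LinearMap.comp_apply, Sd_succ_single, bdry_cone_succ, ih,
      bdry_bdry, map_zero, map_zero, sub_zero]

theorem T_identity (n : ℕ) (c : LA P (n + 1)) :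
    bdry P (n + 1) (T b (n + 1) c) + T b n (bdry P n c) = c - Sd b (n + 1) c := by
  induction n with
  | zero =>
    refine ext_single (f := (bdry P 1).comp (T b 1) + (T b 0).comp (bdry P 0))
      (g := LinearMap.id - Sd b 1) (fun v => ?_) c
    simp only [LinearMap.add_apply, LinearMap.comp_apply, LinearMap.sub_apply, LinearMap.id_apply]
    rw [T_succ_single, Sd_succ_single, T_zero, sub_zero, add_zero, bdry_cone_succ, Sd_zero]
  | succ n ih =>
    refine ext_single (f := (bdry P (n + 2)).comp (T b (n + 2)) + (T b (n + 1)).comp (bdry P (n + 1)))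
      (g := LinearMap.id - Sd b (n + 2)) (fun v => ?_) c
    simp only [LinearMap.add_apply, LinearMap.comp_apply, LinearMap.sub_apply, LinearMap.id_apply]
    have h1 := ih (bdry P (n + 1) (Finsupp.single v 1))
    rw [bdry_bdry, map_zero, add_zero] at h1
    rw [T_succ_single, Sd_succ_single, bdry_cone_succ, map_sub, h1]
    simp only [sub_sub_cancel]
    abel

/-- The iterated homotopy operator. -/
noncomputable def TT (n : ℕ) : ℕ → (LA P n →ₗ[ℚ] LA P (n + 1))
  | 0 => 0
  | k + 1 => T b n + (TT n k).comp (Sd b n)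

/-- The iterated subdivision operator. -/
noncomputable def SS (n : ℕ) : ℕ → (LA P n →ₗ[ℚ] LA P n)
  | 0 => LinearMap.id
  | k + 1 => (SS n k).comp (Sd b n)

theorem TT_identity (n k : ℕ) (c : LA P (n + 1)) :
    bdry P (n + 1) (TT b (n + 1) k c) + TT b n k (bdry P n c) = c - SS b (n + 1) k c := by
  induction k generalizing c with
  | zero => simp [TT, SS]
  | succ k ih =>
    have h1 := T_identity b n c
    have h2 := ih (Sd b (n + 1) c)
    rw [bdry_Sd] at h2
    simp only [TT, SS, LinearMap.add_apply, LinearMap.comp_apply, map_add]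
    have : c - SS b (n + 1) k (Sd b (n + 1) c) =
      (c - Sd b (n + 1) c) + (Sd b (n + 1) c - SS b (n + 1) k (Sd b (n + 1) c)) := by abel
    rw [this, ← h1, ← h2]
    abel

/-! ### Naturality -/

/-- Functoriality of chains in the set of points. -/
noncomputable def mapLA (f : P → Q) (n : ℕ) : LA P n →ₗ[ℚ] LA Q n :=
  Finsupp.lmapDomain ℚ ℚ (fun v : Fin n → P => f ∘ v)

theorem mapLA_single (f : P → Q) (n : ℕ) (v : Fin n → P) :
    mapLA f n (Finsupp.single v 1) = Finsupp.single (f ∘ v) 1 := by
  simp [mapLA]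

theorem mapLA_bdry (f : P → Q) (n : ℕ) (c : LA P (n + 1)) :
    mapLA f n (bdry P n c) = bdry Q n (mapLA f (n + 1) c) := by
  refine ext_single (f := (mapLA f n).comp (bdry P n)) (g := (bdry Q n).comp (mapLA f (n + 1)))
    (fun v => ?_) c
  simp only [LinearMap.comp_apply, bdry_single, mapLA_single, map_sum, map_smul]
  rfl

theorem mapLA_cone (f : P → Q) (p : P) (n : ℕ) (c : LA P n) :
    mapLA f (n + 1) (cone p n c) = cone (f p) n (mapLA f n c) := by
  refine ext_single (f := (mapLA f (n + 1)).comp (cone p n))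
    (g := (cone (f p) n).comp (mapLA f n)) (fun v => ?_) c
  simp only [LinearMap.comp_apply, cone_single, mapLA_single]
  congr 1
  funext j
  refine Fin.cases ?_ (fun j => ?_) j
  · simp
  · simp

variable (b' : ∀ n : ℕ, (Fin (n + 1) → Q) → Q)

theorem mapLA_Sd (f : P → Q) (hf : ∀ n v, f (b n v) = b' n (f ∘ v)) (n : ℕ) (c : LA P n) :
    mapLA f n (Sd b n c) = Sd b' n (mapLA f n c) := by
  induction n with
  | zero => rfl
  | succ n ih =>
    refine ext_single (f := (mapLA f (n + 1)).comp (Sd b (n + 1)))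
      (g := (Sd b' (n + 1)).comp (mapLA f (n + 1))) (fun v => ?_) c
    rw [LinearMap.comp_apply, LinearMap.comp_apply, mapLA_single, Sd_succ_single, Sd_succ_single,
      mapLA_cone, ih, mapLA_bdry, mapLA_single, hf]

theorem mapLA_T (f : P → Q) (hf : ∀ n v, f (b n v) = b' n (f ∘ v)) (n : ℕ) (c : LA P n) :
    mapLA f (n + 1) (T b n c) = T b' n (mapLA f n c) := by
  induction n with
  | zero => simp
  | succ n ih =>
    refine ext_single (f := (mapLA f (n + 2)).comp (T b (n + 1)))
      (g := (T b' (n + 1)).comp (mapLA f (n + 1))) (fun v => ?_) c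
    rw [LinearMap.comp_apply, LinearMap.comp_apply, mapLA_single, T_succ_single, T_succ_single,
      mapLA_cone, map_sub, ih, mapLA_bdry, mapLA_single, hf]

theorem mapLA_SS (f : P → Q) (hf : ∀ n v, f (b n v) = b' n (f ∘ v)) (n k : ℕ) (c : LA P n) :
    mapLA f n (SS b n k c) = SS b' n k (mapLA f n c) := by
  induction k generalizing c with
  | zero => rfl
  | succ k ih =>
    simp only [SS, LinearMap.comp_apply]
    rw [ih, mapLA_Sd b b' f hf]

theorem mapLA_TT (f : P → Q) (hf : ∀ n v, f (b n v) = b' n (f ∘ v)) (n k : ℕ) (c : LA P n) :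
    mapLA f (n + 1) (TT b n k c) = TT b' n k (mapLA f n c) := by
  induction k generalizing c with
  | zero => simp [TT]
  | succ k ih =>
    simp only [TT, LinearMap.comp_apply, LinearMap.add_apply, map_add]
    rw [ih, mapLA_Sd b b' f hf, mapLA_T b b' f hf]

end Pool.Agent.Helper82.Sing
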