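import Pool.Agent.Helper82.Sing.SdAlg
import Pool.Agent.Helper82.SmallDefs

/-!
# The small simplices theorem for singular chains
-/

namespace Pool.Agent.Helper82.Sing

open Finset

/-- The affine map between standard simplices with given images of the vertices. -/
noncomputable def aff {n m : ℕ} (v : Fin (n + 1) → Simp m) : C(Simp n, Simp m) where
  toFun t := ⟨∑ i, t.1 i • (v i).1, (convex_stdSimplex ℝ _).sum_mem (fun i _ => t.2.1 i) t.2.2
    (fun i _ => (v i).2)⟩
  continuous_toFun := by
    refine Continuous.subtype_mk ?_ _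
    refine continuous_finsetSum _ (fun i _ => ?_)
    exact ((continuous_apply i).comp continuous_subtype_val).smul continuous_const

theorem aff_val {n m : ℕ} (v : Fin (n + 1) → Simp m) (t : Simp n) :
    (aff v t).1 = ∑ i, t.1 i • (v i).1 := rfl

/-- The vertices of the standard simplex. -/
noncomputable def vert (m : ℕ) : Fin (m + 1) → Simp m := fun i => stdSimplex.vertex i

theorem vert_val (m : ℕ) (i : Fin (m + 1)) : (vert m i).1 = Pi.single i 1 := rfl

theorem aff_vert (m : ℕ) : aff (vert m) = ContinuousMap.id _ := by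
  ext t : 1
  apply Subtype.ext
  rw [aff_val]
  funext j
  simp only [vert_val, Finset.sum_apply, Pi.smul_apply, Pi.single_apply, smul_eq_mul, mul_ite,
    mul_one, mul_zero, ContinuousMap.id_apply]
  simp

theorem aff_apply_vert {n m : ℕ} (v : Fin (n + 1) → Simp m) (i : Fin (n + 1)) :
    aff v (vert n i) = v i := by
  apply Subtype.ext
  rw [aff_val]
  simp only [vert_val]
  rw [Finset.sum_eq_single i]
  · simp
  · intro j _ hj
    rw [Pi.single_eq_of_ne hj]
    simp
  · simp

theorem aff_comp {n m k : ℕ} (v : Fin (n + 1) → Simp m) (w : Fin (m + 1) → Simp k) :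
    (aff w).comp (aff v) = aff (fun i => aff w (v i)) := by
  ext t : 1
  apply Subtype.ext
  rw [ContinuousMap.comp_apply, aff_val, aff_val, aff_val]
  simp only [aff_val, Finset.sum_apply, Pi.smul_apply, smul_eq_mul, Finset.smul_sum,
    Finset.sum_smul]
  rw [Finset.sum_comm]
  refine Finset.sum_congr rfl (fun i _ => Finset.sum_congr rfl (fun j _ => ?_))
  rw [smul_smul]

/-- The centre of the standard simplex. -/
noncomputable def centre (n : ℕ) : Simp n :=
  ⟨fun _ => ((n : ℝ) + 1)⁻¹, by
    refine ⟨fun _ => by positivity, ?_⟩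
    simp only [Finset.sum_const, Finset.card_univ, Fintype.card_fin, nsmul_eq_mul]
    push_cast
    field_simp⟩

/-- The barycentre of a tuple of points of a standard simplex. -/
noncomputable def bary (m : ℕ) (n : ℕ) (v : Fin (n + 1) → Simp m) : Simp m := aff v (centre n)

theorem aff_bary {m k : ℕ} (w : Fin (m + 1) → Simp k) (n : ℕ) (v : Fin (n + 1) → Simp m) :
    aff w (bary m n v) = bary k n (fun i => aff w (v i)) := by
  unfold bary
  rw [← aff_comp]
  rfl

/-! ### Mesh -/

/-- Tuples with all points in `C` and pairwise distances at most `δ`. -/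
def Good {m : ℕ} (C : Set (Fin (m + 1) → ℝ)) (δ : ℝ) (n : ℕ) : Set (Fin n → Simp m) :=
  {v | (∀ i, (v i).1 ∈ C) ∧ ∀ i j, dist (v i) (v j) ≤ δ}

theorem mem_supported_of_gens {ι κ : Type*} (f : (ι →₀ ℚ) →ₗ[ℚ] (κ →₀ ℚ)) (S : Set ι) (S' : Set κ)
    (h : ∀ v ∈ S, f (Finsupp.single v 1) ∈ Finsupp.supported ℚ ℚ S')
    (c : ι →₀ ℚ) (hc : c ∈ Finsupp.supported ℚ ℚ S) : f c ∈ Finsupp.supported ℚ ℚ S' := by
  have hle : Finsupp.supported ℚ ℚ S ≤ (Finsupp.supported ℚ ℚ S').comap f := by
    rw [Finsupp.supported_eq_span_single, Submodule.span_le]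
    rintro _ ⟨v, hv, rfl⟩
    exact h v hv
  exact hle hc

theorem single_mem_supp {ι : Type*} {S : Set ι} {v : ι} (hv : v ∈ S) :
    Finsupp.single v (1 : ℚ) ∈ Finsupp.supported ℚ ℚ S :=
  Finsupp.single_mem_supported ℚ 1 hv

theorem bdry_single_mem {P : Type*} {n : ℕ} {S : Set (Fin n → P)} {v : Fin (n + 1) → P}
    (h : ∀ i : Fin (n + 1), v ∘ i.succAbove ∈ S) :
    bdry P n (Finsupp.single v 1) ∈ Finsupp.supported ℚ ℚ S := by
  rw [bdry_single]
  exact Submodule.sum_mem _ (fun i _ => Submodule.smul_mem _ _ (single_mem_supp (h i)))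

theorem dist_bary_le {m n : ℕ} {δ : ℝ} (v : Fin (n + 1) → Simp m)
    (h : ∀ i j, dist (v i) (v j) ≤ δ) (k : Fin (n + 1)) :
    dist (v k) (bary m n v) ≤ (n : ℝ) / (n + 1) * δ := by
  have hn : (0 : ℝ) < (n : ℝ) + 1 := by positivity
  have e : (v k).1 - (bary m n v).1 = ∑ i, ((n : ℝ) + 1)⁻¹ • ((v k).1 - (v i).1) := by
    unfold bary
    rw [aff_val]
    simp only [centre, smul_sub, Finset.sum_sub_distrib, Finset.sum_const, Finset.card_univ,
      Fintype.card_fin]
    congr 1
    rw [← Nat.cast_smul_eq_nsmul ℝ, smul_smul]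
    push_cast
    rw [mul_inv_cancel₀ hn.ne', one_smul]
  have h2 : dist (v k) (bary m n v) = ‖(v k).1 - (bary m n v).1‖ := by
    rw [Subtype.dist_eq, dist_eq_norm]
  rw [h2, e]
  have h3 : ∀ i ∈ (Finset.univ : Finset (Fin (n + 1))),
      ‖((n : ℝ) + 1)⁻¹ • ((v k).1 - (v i).1)‖ ≤ if i = k then 0 else ((n : ℝ) + 1)⁻¹ * δ := by
    intro i _
    split_ifs with hi
    · subst hi; simp
    · rw [norm_smul, Real.norm_eq_abs, abs_of_pos (by positivity)]
      refine mul_le_mul_of_nonneg_left ?_ (by positivity)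
      have := h k i
      rwa [Subtype.dist_eq, dist_eq_norm] at this
  refine (norm_sum_le_of_le _ h3).trans (le_of_eq ?_)
  rw [Finset.sum_ite, Finset.sum_const_zero, zero_add, Finset.sum_const]
  have : (Finset.univ.filter (fun i : Fin (n + 1) => ¬ i = k)).card = n := by
    rw [Finset.filter_ne', Finset.card_erase_of_mem (Finset.mem_univ _)]
    simp
  rw [this, nsmul_eq_mul]
  field_simp

theorem mesh {m : ℕ} (N : ℕ) {δ : ℝ} (hδ : 0 ≤ δ) (n : ℕ) (hn : n ≤ N + 1)
    (C : Set (Fin (m + 1) → ℝ)) (hC : Convex ℝ C) (v : Fin n → Simp m) (hv : v ∈ Good C δ n) :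
    Sd (bary m) n (Finsupp.single v 1) ∈
      Finsupp.supported ℚ ℚ (Good C ((N : ℝ) / (N + 1) * δ) n) := by
  induction n generalizing C with
  | zero =>
    rw [Sd_zero]
    apply single_mem_supp
    exact ⟨fun i => i.elim0, fun i => i.elim0⟩
  | succ n ih =>
    have hr : (n : ℝ) / (n + 1) * δ ≤ (N : ℝ) / (N + 1) * δ := by
      apply mul_le_mul_of_nonneg_right _ hδ
      rw [div_le_div_iff₀ (by positivity) (by positivity)]
      have : (n : ℝ) ≤ N := by exact_mod_cast (by omega : n ≤ N)
      nlinarith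
    have hr0 : 0 ≤ (N : ℝ) / (N + 1) * δ := by positivity
    set r : ℝ := (N : ℝ) / (N + 1) * δ with hrdef
    set p : Simp m := bary m n v with hp
    have hpC : p.1 ∈ C := by
      rw [hp, bary, aff_val]
      exact hC.sum_mem (fun i _ => (centre n).2.1 i) (centre n).2.2 (fun i _ => hv.1 i)
    let C' : Set (Fin (m + 1) → ℝ) := C ∩ Metric.closedBall p.1 r
    have hC' : Convex ℝ C' := hC.inter (convex_closedBall _ _)
    have hvk : ∀ k, (v k).1 ∈ C' := by
      intro k
      refine ⟨hv.1 k, ?_⟩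
      rw [Metric.mem_closedBall]
      have h1 := dist_bary_le v hv.2 k
      rw [← hp] at h1
      exact h1.trans hr
    rw [Sd_succ_single]
    have h2 : Sd (bary m) n (bdry (Simp m) n (Finsupp.single v 1)) ∈
        Finsupp.supported ℚ ℚ (Good C' r n) := by
      refine mem_supported_of_gens (Sd (bary m) n) (Good C' δ n) (Good C' r n)
        (fun w hw => ih (by omega) C' hC' w hw) _ ?_
      apply bdry_single_mem
      intro i
      exact ⟨fun j => hvk _, fun j k => hv.2 _ _⟩
    refine mem_supported_of_gens (cone (bary m n v) n) (Good C' r n) (Good C r (n + 1)) ?_ _ h2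
    intro w hw
    rw [cone_single]
    apply single_mem_supp
    have hd : ∀ j, dist (w j) p ≤ r := by
      intro j
      exact (hw.1 j).2
    refine ⟨fun i => ?_, fun i j => ?_⟩
    · refine Fin.cases ?_ (fun i => ?_) i
      · simpa using hpC
      · simpa using (hw.1 i).1
    · refine Fin.cases ?_ (fun i => ?_) i
      · refine Fin.cases ?_ (fun j => ?_) j
        · simpa using hr0
        · simpa [dist_comm] using hd j
      · refine Fin.cases ?_ (fun j => ?_) j
        · simpa using hd i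
        · simpa using hw.2 i j

theorem mesh_iter {m : ℕ} (N k : ℕ) {δ : ℝ} (hδ : 0 ≤ δ) (n : ℕ) (hn : n ≤ N + 1)
    (C : Set (Fin (m + 1) → ℝ)) (hC : Convex ℝ C) (c : LA (Simp m) n)
    (hc : c ∈ Finsupp.supported ℚ ℚ (Good C δ n)) :
    SS (bary m) n k c ∈ Finsupp.supported ℚ ℚ (Good C (((N : ℝ) / (N + 1)) ^ k * δ) n) := by
  induction k generalizing c δ with
  | zero => simpa [SS] using hc
  | succ k ih =>
    have h1 := mem_supported_of_gens (Sd (bary m) n) (Good C δ n)
      (Good C ((N : ℝ) / (N + 1) * δ) n) (fun w hw => mesh N hδ n hn C hC w hw) c hc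
    have h2 := ih (δ := (N : ℝ) / (N + 1) * δ) (by positivity) _ h1
    rw [pow_succ, mul_assoc]
    exact h2

end Pool.Agent.Helper82.Sing
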